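import Mathlib
import Pool.Agent.N916.RE.Fin
import Pool.Agent.N916.GB.Tr

/-!
# The good sets and the elementary form of the absence of ideal classes of order four, even
discriminants
-/

set_option autoImplicit false
set_option linter.all false

open scoped Classical

namespace Pool.Agent.N916.TE

open Finset
open Pool.Agent.Y703.CQ (nr)
open Pool.Agent.N973.ND (uu)
open Pool.Agent.N916.GB (Po Vt Gd Gv Ev sy z2 z2_add_self z2_sq z2_eq_of_add nr_recip sum_uu)
open Pool.Agent.N855.P15 (PP sg sg_inj sg_sum jac_prod)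

/-- rank and the kernel of the transpose -/
theorem rank_iff {V : Type} [Fintype V] [Nonempty V] (M : Matrix V V (ZMod 2))
    {e : V → ZMod 2} (he : e ≠ 0) (hMe : M.transpose.mulVec e = 0) :
    M.rank + 1 = Fintype.card V ↔ ∀ y, M.transpose.mulVec y = 0 → y = 0 ∨ y = e := by
  have h2 := LinearMap.finrank_range_add_finrank_ker M.transpose.mulVecLin
  rw [Module.finrank_fintype_fun_eq_card] at h2
  have h3 : M.rank = Module.finrank (ZMod 2) (LinearMap.range M.transpose.mulVecLin) := by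
    rw [← Matrix.rank_transpose]; rfl
  rw [← h3] at h2
  have hk : ∀ x, x ∈ LinearMap.ker M.transpose.mulVecLin ↔ M.transpose.mulVec x = 0 := by
    intro x
    rw [LinearMap.mem_ker, Matrix.mulVecLin_apply]
  have hek : e ∈ LinearMap.ker M.transpose.mulVecLin := (hk e).2 hMe
  have hne : (⟨e, hek⟩ : LinearMap.ker M.transpose.mulVecLin) ≠ 0 := by
    intro h
    exact he (congrArg Subtype.val h)
  have h4 : 1 ≤ Module.finrank (ZMod 2) (LinearMap.ker M.transpose.mulVecLin) := by
    have : 0 < Module.finrank (ZMod 2) (LinearMap.ker M.transpose.mulVecLin) := by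
      rw [Module.finrank_pos_iff]
      exact ⟨⟨_, _, hne⟩⟩
    omega
  constructor
  · intro h y hy
    have h5 : Module.finrank (ZMod 2) (LinearMap.ker M.transpose.mulVecLin) = 1 := by omega
    rw [finrank_eq_one_iff_of_nonzero' ⟨e, hek⟩ hne] at h5
    obtain ⟨c, hc⟩ := h5 ⟨y, (hk y).2 hy⟩
    have h6 : c • e = y := congrArg Subtype.val hc
    rcases z2 c with h | h
    · left
      rw [← h6, h, zero_smul]
    · right
      rw [← h6, h, one_smul]
  · intro h
    have h5 : Module.finrank (ZMod 2) (LinearMap.ker M.transpose.mulVecLin) ≤ 1 := by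
      refine finrank_le_one ⟨e, hek⟩ fun y => ?_
      rcases h y.1 ((hk _).1 y.2) with h6 | h6
      · exact ⟨0, by rw [zero_smul]; exact Subtype.ext h6.symm⟩
      · exact ⟨1, by rw [one_smul]; exact Subtype.ext h6.symm⟩
    omega

/-- the two additive symbols -/
theorem sj_nr {p q : ℕ} (hp : p.Prime) (hq : q.Prime) (hne : q ≠ p) :
    Pool.Agent.N855.P15.sy (q : ℤ) p = nr p q := by
  haveI : Fact p.Prime := ⟨hp⟩
  have h0 : (q : ZMod p) ≠ 0 := by
    intro h
    rw [ZMod.natCast_eq_zero_iff] at h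
    exact hne ((Nat.prime_dvd_prime_iff_eq hp hq).1 h).symm
  unfold Pool.Agent.N855.P15.sy Pool.Agent.Y703.CQ.nr
  rw [← jacobiSym.legendreSym.to_jacobiSym]
  by_cases h : IsSquare (q : ZMod p)
  · rw [if_pos h, (legendreSym.eq_one_iff' p h0).2 h, if_neg (by norm_num)]
  · rw [if_neg h, (legendreSym.eq_neg_one_iff' p).2 h, if_pos rfl]

/-- the additive symbol of a quotient -/
theorem sj_div {m p : ℕ} (hsq : Squarefree m) (hp : p ∈ m.primeFactors) :
    Pool.Agent.N855.P15.sy ((m / p : ℕ) : ℤ) p = ∑ q ∈ m.primeFactors.erase p, nr p q := by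
  have hpp := Nat.prime_of_mem_primeFactors hp
  have hpd := Nat.dvd_of_mem_primeFactors hp
  have hm : m / p = ∏ q ∈ m.primeFactors.erase p, q := by
    apply Nat.div_eq_of_eq_mul_right hpp.pos
    rw [Finset.mul_prod_erase m.primeFactors (fun q => q) hp,
      Nat.prod_primeFactors_of_squarefree hsq]
  have hgm : Int.gcd ((m / p : ℕ) : ℤ) p = 1 := by
    rw [Int.gcd_natCast_natCast]
    apply Nat.Coprime.symm
    rw [Nat.Prime.coprime_iff_not_dvd hpp]
    rintro ⟨k, hk⟩
    have h1 : p * p ∣ m := ⟨k, by rw [mul_assoc, ← hk, Nat.mul_div_cancel' hpd]⟩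
    exact hpp.one_lt.ne' (Nat.isUnit_iff.1 (hsq p h1))
  apply sg_inj
  rw [Pool.Agent.N855.P15.sg_sy hgm, hm, sg_sum, Nat.cast_prod, jac_prod]
  refine prod_congr rfl fun q hq => ?_
  obtain ⟨h1, h2⟩ := Finset.mem_erase.1 hq
  have hqp := Nat.prime_of_mem_primeFactors h2
  rw [← sj_nr hpp hqp h1, Pool.Agent.N855.P15.sg_sy]
  rw [Int.gcd_natCast_natCast]
  exact (Nat.coprime_primes hqp hpp).2 h1

theorem Vt_eq {m : ℕ} (hm0 : m ≠ 0) : Vt true (m.primeFactors.erase 2) = (4 * m).primeFactors := by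
  unfold Pool.Agent.N916.GB.Vt
  rw [if_pos rfl, Pool.Agent.N916.RE.pf4 hm0]

theorem Gd_iff_Gv' {m : ℕ} (hm0 : m ≠ 0) (r s : ZMod 2) :
    Gd true r s (m.primeFactors.erase 2) ↔
      Gv (fun q p : PP (4 * m) => sy r s (q : ℕ) (p : ℕ)) := by
  unfold Pool.Agent.N916.GB.Gd Pool.Agent.N916.GB.Gv
  rw [Vt_eq hm0]
  constructor
  · intro h x hx p q
    have h1 := h (fun p => if hp : p ∈ (4 * m).primeFactors then x ⟨p, hp⟩ else 0) (by
      intro q hq
      have h2 := hx ⟨q, hq⟩
      rw [← sum_coe_sort (4 * m).primeFactors]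
      refine Eq.trans (sum_congr rfl fun p _ => ?_) h2
      rw [dif_pos p.2, dif_pos hq]) p p.2 q q.2
    rw [dif_pos p.2, dif_pos q.2] at h1
    exact h1
  · intro h x hx p hp q hq
    exact h (fun p => x p) (by
      intro q
      have h2 := hx q q.2
      rw [← sum_coe_sort (4 * m).primeFactors] at h2
      exact h2) ⟨p, hp⟩ ⟨q, hq⟩

/-- the diagonal entries -/
theorem diag {m : ℕ} (hsq : Squarefree m) {r s : ZMod 2} (hr : r = if 2 ∣ m then 1 else 0)
    (hs : ∑ p ∈ m.primeFactors.erase 2, uu p = 1 + s) {p : ℕ} (hp : p ∈ m.primeFactors.erase 2) :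
    ∑ q ∈ (4 * m).primeFactors.erase p, sy r s p q = ∑ q ∈ m.primeFactors.erase p, nr p q := by
  have hm0 := hsq.ne_zero
  obtain ⟨hp2, hpm⟩ := Finset.mem_erase.1 hp
  have hpp := Nat.prime_of_mem_primeFactors hpm
  have hS : ∀ q ∈ m.primeFactors.erase 2, Po q := fun q hq =>
    ⟨Nat.prime_of_mem_primeFactors (Finset.mem_of_mem_erase hq), (Finset.mem_erase.1 hq).1⟩
  have h2S : 2 ∉ (m.primeFactors.erase 2).erase p := by simp
  have e1 : (4 * m).primeFactors.erase p = insert 2 ((m.primeFactors.erase 2).erase p) := by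
    rw [Pool.Agent.N916.RE.pf4 hm0, Finset.erase_insert_of_ne (Ne.symm hp2)]
  have e2 : ∑ q ∈ m.primeFactors.erase p, nr p q =
      r * nr p 2 + ∑ q ∈ (m.primeFactors.erase 2).erase p, nr p q := by
    by_cases h : 2 ∣ m
    · have h2m : 2 ∈ m.primeFactors := Nat.mem_primeFactors.2 ⟨Nat.prime_two, h, hm0⟩
      have e3 : m.primeFactors.erase p = insert 2 ((m.primeFactors.erase 2).erase p) := by
        rw [← Finset.erase_insert_of_ne (Ne.symm hp2), Finset.insert_erase h2m]
      rw [e3, sum_insert h2S, hr, if_pos h, one_mul]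
    · have h2m : 2 ∉ m.primeFactors := fun h' => h (Nat.dvd_of_mem_primeFactors h')
      rw [hr, if_neg h, zero_mul, zero_add, Finset.erase_eq_of_notMem h2m]
  have e4 : ∑ q ∈ (m.primeFactors.erase 2).erase p, sy r s p q =
      ∑ q ∈ (m.primeFactors.erase 2).erase p, nr q p := by
    refine sum_congr rfl fun q hq => ?_
    unfold Pool.Agent.N916.GB.sy
    rw [if_neg (hS q (Finset.mem_of_mem_erase hq)).2]
  have e5 : sy r s p 2 = r * nr p 2 + s * uu p := by
    unfold Pool.Agent.N916.GB.sy; rw [if_pos rfl]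
  have e6 : ∑ q ∈ (m.primeFactors.erase 2).erase p, nr q p +
      ∑ q ∈ (m.primeFactors.erase 2).erase p, nr p q =
      uu p * ∑ q ∈ (m.primeFactors.erase 2).erase p, uu q := by
    rw [← sum_add_distrib, mul_sum]
    refine sum_congr rfl fun q hq => ?_
    rw [add_comm]
    exact nr_recip (hS p hp) (hS q (Finset.mem_of_mem_erase hq)) (Ne.symm (Finset.ne_of_mem_erase hq))
  have e7 : uu p + ∑ q ∈ (m.primeFactors.erase 2).erase p, uu q = 1 + s := by
    rw [Finset.add_sum_erase _ _ hp, hs]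
  rw [e1, sum_insert h2S, e4, e5, e2]
  have fin : ∀ r s u v A B C : ZMod 2, A + B = u * C → u + C = 1 + s →
      r * v + s * u + A = r * v + B := by decide
  exact fin _ _ _ _ _ _ _ e6 e7

theorem Gd_iff_Qe {m : ℕ} (hsq : Squarefree m) (hm1 : m ≠ 1) {r s : ZMod 2}
    (hr : r = if 2 ∣ m then 1 else 0) (hs : ∑ p ∈ m.primeFactors.erase 2, uu p = 1 + s) :
    Gd true r s (m.primeFactors.erase 2) ↔ Pool.Agent.N969.P15.Qe (4 * m) := by
  have hm0 := hsq.ne_zero
  have h2V : 2 ∈ (4 * m).primeFactors := by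
    rw [Pool.Agent.N916.RE.pf4 hm0]; exact Finset.mem_insert_self _ _
  haveI : Nonempty (PP (4 * m)) := ⟨⟨2, h2V⟩⟩
  rw [Gd_iff_Gv' hm0, Pool.Agent.N916.GB.Gv_iff_rank, Pool.Agent.N916.RE.Qe_iff hsq]
  set N : PP (4 * m) → PP (4 * m) → ZMod 2 := fun q p => sy r s (q : ℕ) (p : ℕ) with hN
  have hV : ∀ p : PP (4 * m), (p : ℕ) ≠ 2 → (p : ℕ) ∈ m.primeFactors.erase 2 := by
    intro p hp
    have h1 : (p : ℕ) ∈ insert 2 (m.primeFactors.erase 2) := by
      rw [← Pool.Agent.N916.RE.pf4 hm0]; exact p.2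
    rcases Finset.mem_insert.1 h1 with h | h
    · exact absurd h hp
    · exact h
  -- the entries of the odd columns
  have hent : ∀ (q p : PP (4 * m)), (p : ℕ) ≠ 2 →
      Pool.Agent.N916.GB.Lm N q p = Pool.Agent.N916.RE.Me m (q : ℕ) (p : ℕ) := by
    intro q p hp
    have hpm := hV p hp
    obtain ⟨-, hpm'⟩ := Finset.mem_erase.1 hpm
    have hpp := Nat.prime_of_mem_primeFactors hpm'
    unfold Pool.Agent.N916.GB.Lm Pool.Agent.N916.RE.Me
    by_cases h : p = q
    · subst h
      rw [if_pos rfl, if_pos rfl, sj_div hsq hpm', ← diag hsq hr hs hpm]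
      rw [hN]
      simp only
      have e1 : ∀ p' : PP (4 * m), (if p' = p then (0 : ZMod 2) else sy r s (p : ℕ) (p' : ℕ)) =
          if (p' : ℕ) = p then (0 : ZMod 2) else sy r s (p : ℕ) (p' : ℕ) := by
        intro p'
        by_cases h : p' = p
        · rw [if_pos h, if_pos (congrArg Subtype.val h)]
        · rw [if_neg h, if_neg (fun h' => h (Subtype.ext h'))]
      rw [sum_congr rfl fun p' _ => e1 p',
        sum_coe_sort (4 * m).primeFactors (fun q => if q = (p : ℕ) then (0 : ZMod 2) else sy r s (p : ℕ) q),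
        ← Finset.sum_erase (4 * m).primeFactors (f := fun q => if q = (p : ℕ) then (0 : ZMod 2) else
          sy r s (p : ℕ) q) (a := (p : ℕ)) (if_pos rfl)]
      exact sum_congr rfl fun q hq => if_neg (Finset.ne_of_mem_erase hq)
    · have hne : (q : ℕ) ≠ (p : ℕ) := fun h' => h (Subtype.ext h'.symm)
      rw [if_neg h, if_neg hne, sj_nr hpp (Nat.prime_of_mem_primeFactors q.2) hne, hN]
      simp only
      unfold Pool.Agent.N916.GB.sy
      rw [if_neg hp]
  -- the odd columns and the linear map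
  have hcol : ∀ (y : PP (4 * m) → ZMod 2) (p : Pool.Agent.N916.RE.WW m) (hp : (p : ℕ) ∈ (4 * m).primeFactors),
      (Pool.Agent.N916.GB.Lm N).transpose.mulVec y ⟨p, hp⟩ = Pool.Agent.N916.RE.Lm m y p := by
    intro y p hp
    rw [Pool.Agent.N916.RE.Lm_apply]
    unfold Matrix.mulVec dotProduct
    refine sum_congr rfl fun q _ => ?_
    show Pool.Agent.N916.GB.Lm N q ⟨p, hp⟩ * y q = _
    rw [hent q ⟨p, hp⟩ (Finset.mem_erase.1 p.2).1, mul_comm]
  have htot : ∀ y : PP (4 * m) → ZMod 2,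
      ∑ p, (Pool.Agent.N916.GB.Lm N).transpose.mulVec y p = 0 := by
    intro y
    have e1 : ∑ p, (Pool.Agent.N916.GB.Lm N).transpose.mulVec y p =
        ∑ q, y q * (Pool.Agent.N916.GB.Lm N).mulVec (fun _ => 1) q := by
      unfold Matrix.mulVec dotProduct
      rw [sum_comm]
      refine sum_congr rfl fun q _ => ?_
      rw [mul_sum]
      refine sum_congr rfl fun p _ => ?_
      show Pool.Agent.N916.GB.Lm N q p * y q = y q * (Pool.Agent.N916.GB.Lm N q p * 1)
      rw [mul_one, mul_comm]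
    rw [e1]
    refine sum_eq_zero fun q _ => ?_
    rw [Pool.Agent.N916.GB.Lm_mulVec, Pool.Agent.N916.GB.Ev_const, mul_zero]
  have hker : ∀ y : PP (4 * m) → ZMod 2,
      (Pool.Agent.N916.GB.Lm N).transpose.mulVec y = 0 ↔ Pool.Agent.N916.RE.Lm m y = 0 := by
    intro y
    constructor
    · intro h
      funext p
      have hp4 : (p : ℕ) ∈ (4 * m).primeFactors := by
        rw [Pool.Agent.N916.RE.pf4 hm0]; exact Finset.mem_insert_of_mem p.2
      rw [← hcol y p hp4, h]
      rfl
    · intro h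
      have hodd : ∀ p : PP (4 * m), (p : ℕ) ≠ 2 →
          (Pool.Agent.N916.GB.Lm N).transpose.mulVec y p = 0 := by
        intro p hp
        have := hcol y ⟨p, hV p hp⟩ p.2
        rw [h] at this
        exact this
      funext p
      by_cases hp : (p : ℕ) = 2
      · have h1 := htot y
        rw [← Finset.add_sum_erase univ _ (Finset.mem_univ p)] at h1
        rw [Finset.sum_eq_zero (s := univ.erase p) (fun q hq => hodd q (fun h' =>
          (Finset.ne_of_mem_erase hq) (Subtype.ext (h'.trans hp.symm)))), add_zero] at h1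
        exact h1
      · exact hodd p hp
  rw [rank_iff _ (Pool.Agent.N916.RE.ev_ne hsq hm1) ((hker _).2 (Pool.Agent.N916.RE.Lm_ev hsq))]
  exact forall_congr' fun y => by rw [hker]

end Pool.Agent.N916.TE
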