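import Mathlib
import Pool.Agent.N916.TE.Gq
import Pool.Agent.N916.GB.Fin

/-!
# Natural density of the negative discriminants with `3` split and `5` inert and without ideal
classes of order four
-/

set_option autoImplicit false
set_option linter.all false

open scoped Classical

namespace Pool.Agent.N916.TE

open Finset Filter
open Pool.Agent.N973.ND (uu)
open Pool.Agent.N916.GB
open Pool.Agent.N969.P15 (Qc Qe Cls0 Cls0e Ev)

theorem erase_odd {M : ℕ} (hM : M % 2 = 1) : M.primeFactors.erase 2 = M.primeFactors := by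
  apply Finset.erase_eq_of_notMem
  intro h
  have := Nat.dvd_of_mem_primeFactors h
  omega

theorem erase_even {M : ℕ} (hM : M % 2 = 1) : (2 * M).primeFactors.erase 2 = M.primeFactors := by
  rw [Nat.primeFactors_mul (by norm_num) (by omega), Nat.Prime.primeFactors Nat.prime_two]
  have h : 2 ∉ M.primeFactors := by
    intro h
    have := Nat.dvd_of_mem_primeFactors h
    omega
  ext p
  simp only [mem_erase, mem_union, mem_singleton]
  constructor
  · rintro ⟨h1, h2 | h2⟩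
    · exact absurd h2 h1
    · exact h2
  · intro h'
    exact ⟨fun h2 => h (h2 ▸ h'), Or.inr h'⟩

theorem sum_uu' {M : ℕ} (hsq : Squarefree M) (hM : M % 2 = 1) :
    ∑ p ∈ M.primeFactors, uu p = if M % 4 = 3 then 1 else 0 := by
  have h1 := sum_uu M.primeFactors (fun p hp => ⟨Nat.prime_of_mem_primeFactors hp, by
    rintro rfl
    have := Nat.dvd_of_mem_primeFactors hp
    omega⟩)
  rw [Nat.prod_primeFactors_of_squarefree hsq] at h1
  rcases z2 (∑ p ∈ M.primeFactors, uu p) with h | h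
  · rw [h] at h1 ⊢
    rw [if_pos rfl] at h1
    rw [if_neg (by omega)]
  · rw [h] at h1 ⊢
    rw [if_neg (by decide)] at h1
    rw [if_pos h1]

/-- `n = 4 M`, `M` congruent to `1` modulo `4` -/
theorem qe1 {M : ℕ} (hsq : Squarefree M) (hM : M % 4 = 1) (h1 : M ≠ 1) :
    Qe (4 * M) ↔ Gd true 0 1 M.primeFactors := by
  have h := Gd_iff_Qe hsq h1 (r := 0) (s := 1) (by rw [if_neg (by omega)]) (by
    rw [erase_odd (by omega), sum_uu' hsq (by omega), if_neg (by omega)]; decide)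
  rw [erase_odd (by omega)] at h
  exact h.symm

theorem sq2 {M : ℕ} (hsq : Squarefree M) (hM : M % 2 = 1) : Squarefree (2 * M) := by
  rw [Nat.squarefree_mul (Nat.coprime_two_left.2 (Nat.odd_iff.2 hM))]
  exact ⟨Nat.prime_two.squarefree, hsq⟩

/-- `n = 8 M`, `M` congruent to `1` modulo `4` -/
theorem qe2 {M : ℕ} (hsq : Squarefree M) (hM : M % 4 = 1) :
    Qe (8 * M) ↔ Gd true 1 1 M.primeFactors := by
  have h := Gd_iff_Qe (sq2 hsq (by omega)) (by omega) (r := 1) (s := 1)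
    (by rw [if_pos (Dvd.intro _ rfl)]) (by
    rw [erase_even (by omega), sum_uu' hsq (by omega), if_neg (by omega)]; decide)
  rw [erase_even (by omega)] at h
  rw [h]
  have : 4 * (2 * M) = 8 * M := by ring
  rw [this]

/-- `n = 8 M`, `M` congruent to `3` modulo `4` -/
theorem qe3 {M : ℕ} (hsq : Squarefree M) (hM : M % 4 = 3) :
    Qe (8 * M) ↔ Gd true 1 0 M.primeFactors := by
  have h := Gd_iff_Qe (sq2 hsq (by omega)) (by omega) (r := 1) (s := 0)
    (by rw [if_pos (Dvd.intro _ rfl)]) (by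
    rw [erase_even (by omega), sum_uu' hsq (by omega), if_pos (by omega)]; decide)
  rw [erase_even (by omega)] at h
  rw [h]
  have : 4 * (2 * M) = 8 * M := by ring
  rw [this]

/-- the even discriminants of the class -/
theorem cls0e_iff (n : ℕ) : Cls0e n ↔
    (∃ M, n = 4 * M ∧ Squarefree M ∧ M % 120 ∈ ({17, 53, 77, 113} : Finset ℕ)) ∨
    (∃ M, n = 8 * M ∧ Squarefree M ∧ M % 120 ∈ ({1, 49, 61, 109} : Finset ℕ)) ∨
    (∃ M, n = 8 * M ∧ Squarefree M ∧ M % 120 ∈ ({19, 31, 79, 91} : Finset ℕ)) := by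
  simp only [mem_insert, mem_singleton]
  constructor
  · rintro ⟨⟨m, rfl, hsq, hm⟩, h3, h5⟩
    rcases hm with hm | hm
    · left
      exact ⟨m, rfl, hsq, by omega⟩
    · obtain ⟨M, hM⟩ : ∃ M, m = 2 * M := ⟨m / 2, by omega⟩
      have hsM : Squarefree M := hsq.squarefree_of_dvd ⟨2, by rw [hM]; ring⟩
      rcases (show M % 4 = 1 ∨ M % 4 = 3 by omega) with h | h
      · right; left
        exact ⟨M, by omega, hsM, by omega⟩
      · right; right
        exact ⟨M, by omega, hsM, by omega⟩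
  · rintro (⟨M, rfl, hsq, hM⟩ | ⟨M, rfl, hsq, hM⟩ | ⟨M, rfl, hsq, hM⟩)
    · exact ⟨⟨M, rfl, hsq, by omega⟩, by omega, by omega⟩
    · exact ⟨⟨2 * M, by ring, sq2 hsq (by omega), by omega⟩, by omega, by omega⟩
    · exact ⟨⟨2 * M, by ring, sq2 hsq (by omega), by omega⟩, by omega, by omega⟩

/-- counting by parts -/
theorem count_split (X : ℕ) (P P0 P1 P2 P3 : ℕ → Prop) [DecidablePred P] [DecidablePred P0]
    [DecidablePred P1] [DecidablePred P2] [DecidablePred P3]
    (hP : ∀ n, P n ↔ P0 n ∨ (∃ M, n = 4 * M ∧ P1 M) ∨ (∃ M, n = 8 * M ∧ P2 M) ∨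
      (∃ M, n = 8 * M ∧ P3 M))
    (h0 : ∀ n, P0 n → n % 2 = 1) (h1 : ∀ M, P1 M → M % 4 = 1) (h2 : ∀ M, P2 M → M % 4 = 1)
    (h3 : ∀ M, P3 M → M % 4 = 3) :
    ((Icc 1 X).filter P).card = ((Icc 1 X).filter P0).card + ((Icc 1 (X / 4)).filter P1).card +
      ((Icc 1 (X / 8)).filter P2).card + ((Icc 1 (X / 8)).filter P3).card := by
  have e1 : ((Icc 1 (X / 4)).filter P1).card =
      (((Icc 1 (X / 4)).filter P1).image fun M => 4 * M).card :=
    (Finset.card_image_of_injective _ (fun a b h => by simpa using h)).symm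
  have e2 : ((Icc 1 (X / 8)).filter P2).card =
      (((Icc 1 (X / 8)).filter P2).image fun M => 8 * M).card :=
    (Finset.card_image_of_injective _ (fun a b h => by simpa using h)).symm
  have e3 : ((Icc 1 (X / 8)).filter P3).card =
      (((Icc 1 (X / 8)).filter P3).image fun M => 8 * M).card :=
    (Finset.card_image_of_injective _ (fun a b h => by simpa using h)).symm
  rw [e1, e2, e3]
  have m0 : ∀ n ∈ (Icc 1 X).filter P0, n % 2 = 1 := fun n hn => h0 n (mem_filter.1 hn).2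
  have m1 : ∀ n ∈ ((Icc 1 (X / 4)).filter P1).image (fun M => 4 * M), n % 16 = 4 := by
    intro n hn
    obtain ⟨M, hM, rfl⟩ := mem_image.1 hn
    have := h1 M (mem_filter.1 hM).2
    omega
  have m2 : ∀ n ∈ ((Icc 1 (X / 8)).filter P2).image (fun M => 8 * M), n % 32 = 8 := by
    intro n hn
    obtain ⟨M, hM, rfl⟩ := mem_image.1 hn
    have := h2 M (mem_filter.1 hM).2
    omega
  have m3 : ∀ n ∈ ((Icc 1 (X / 8)).filter P3).image (fun M => 8 * M), n % 32 = 24 := by
    intro n hn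
    obtain ⟨M, hM, rfl⟩ := mem_image.1 hn
    have := h3 M (mem_filter.1 hM).2
    omega
  rw [← Finset.card_union_of_disjoint, ← Finset.card_union_of_disjoint,
    ← Finset.card_union_of_disjoint]
  · congr 1
    ext n
    simp only [mem_filter, mem_union, mem_image, mem_Icc]
    rw [hP]
    constructor
    · rintro ⟨⟨a, b⟩, h | ⟨M, rfl, h⟩ | ⟨M, rfl, h⟩ | ⟨M, rfl, h⟩⟩
      · exact Or.inl (Or.inl (Or.inl ⟨⟨a, b⟩, h⟩))
      · exact Or.inl (Or.inl (Or.inr ⟨M, ⟨⟨by omega, by omega⟩, h⟩, rfl⟩))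
      · exact Or.inl (Or.inr ⟨M, ⟨⟨by omega, by omega⟩, h⟩, rfl⟩)
      · exact Or.inr ⟨M, ⟨⟨by omega, by omega⟩, h⟩, rfl⟩
    · rintro (((⟨⟨a, b⟩, h⟩ | ⟨M, ⟨⟨a, b⟩, h⟩, rfl⟩) | ⟨M, ⟨⟨a, b⟩, h⟩, rfl⟩) |
        ⟨M, ⟨⟨a, b⟩, h⟩, rfl⟩)
      · exact ⟨⟨a, b⟩, Or.inl h⟩
      · exact ⟨⟨by omega, by omega⟩, Or.inr (Or.inl ⟨M, rfl, h⟩)⟩
      · exact ⟨⟨by omega, by omega⟩, Or.inr (Or.inr (Or.inl ⟨M, rfl, h⟩))⟩
      · exact ⟨⟨by omega, by omega⟩, Or.inr (Or.inr (Or.inr ⟨M, rfl, h⟩))⟩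
  · rw [Finset.disjoint_left]
    intro n hn hn'
    have k3 := m3 n hn'
    rcases mem_union.1 hn with hn | hn
    · rcases mem_union.1 hn with hn | hn
      · have := m0 n hn; omega
      · have := m1 n hn; omega
    · have := m2 n hn; omega
  · rw [Finset.disjoint_left]
    intro n hn hn'
    have k3 := m2 n hn'
    rcases mem_union.1 hn with hn | hn
    · have := m0 n hn; omega
    · have := m1 n hn; omega
  · rw [Finset.disjoint_left]
    intro n hn hn'
    have k3 := m1 n hn'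
    have := m0 n hn; omega

/-- the count in a class -/
theorem dq (t : Bool) (r s : ZMod 2) (K : Finset ℕ) (hok : Ok t r s K) :
    ∀ ε : ℝ, 0 < ε → ∃ X₀ : ℕ, ∀ X : ℕ, X₀ ≤ X →
      |(((Icc 1 X).filter fun n => Squarefree n ∧ n % 120 ∈ K ∧
        Gd t r s n.primeFactors).card : ℝ) - eta * (((Icc 1 X).filter fun n => Squarefree n ∧
          n % 120 ∈ K).card : ℝ)| ≤ ε * X := by
  have hK : ∀ a ∈ K, a % 2 = 1 := by
    intro b hb
    have := (hok.2.2 b hb).2
    split_ifs at this <;> omega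
  intro ε hε
  obtain ⟨X₀, hX₀⟩ := Pool.Agent.N218.GB.t_DQ t r s K hok ε hε
  refine ⟨X₀, fun X hX => ?_⟩
  have h1 := hX₀ X hX
  have e1 := card_eq hK X (Gd t r s)
  have e2 := card_eq hK X (fun _ => True)
  rw [Finset.filter_true] at e2
  simp only [and_true] at e2
  rw [← e1, ← e2] at h1
  exact h1

theorem ok0 : Ok false 0 0 {23, 47, 83, 107} := ⟨fun _ => rfl, fun h => absurd h (by decide),
  fun a ha => by
    rw [if_pos rfl]
    simp only [mem_insert, mem_singleton] at ha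
    omega⟩

theorem ok1 : Ok true 0 1 {17, 53, 77, 113} := ⟨fun h => absurd h (by decide),
  fun _ => Or.inr (by decide), fun a ha => by
    rw [if_neg (by decide)]
    simp only [mem_insert, mem_singleton] at ha
    omega⟩

theorem ok2 : Ok true 1 1 {1, 49, 61, 109} := ⟨fun h => absurd h (by decide),
  fun _ => Or.inr (by decide), fun a ha => by
    rw [if_neg (by decide)]
    simp only [mem_insert, mem_singleton] at ha
    omega⟩

theorem ok3 : Ok true 1 0 {19, 31, 79, 91} := ⟨fun h => absurd h (by decide),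
  fun _ => Or.inl (by decide), fun a ha => by
    rw [if_pos rfl]
    simp only [mem_insert, mem_singleton] at ha
    omega⟩

theorem cls0_iff (n : ℕ) : Cls0 n ↔ Squarefree n ∧ n % 120 ∈ ({23, 47, 83, 107} : Finset ℕ) := by
  unfold Pool.Agent.N969.P15.Cls0
  simp only [mem_insert, mem_singleton]
  refine and_congr_right fun _ => ?_
  omega

/-- the class -/
theorem all_iff (n : ℕ) : (Cls0 n ∨ Cls0e n) ↔
    (Squarefree n ∧ n % 120 ∈ ({23, 47, 83, 107} : Finset ℕ)) ∨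
    (∃ M, n = 4 * M ∧ Squarefree M ∧ M % 120 ∈ ({17, 53, 77, 113} : Finset ℕ)) ∨
    (∃ M, n = 8 * M ∧ Squarefree M ∧ M % 120 ∈ ({1, 49, 61, 109} : Finset ℕ)) ∨
    (∃ M, n = 8 * M ∧ Squarefree M ∧ M % 120 ∈ ({19, 31, 79, 91} : Finset ℕ)) := by
  rw [cls0_iff, cls0e_iff]

/-- the good elements of the class -/
theorem good_iff (n : ℕ) : ((Cls0 n ∧ Qc n) ∨ (Cls0e n ∧ Qe n)) ↔
    (Squarefree n ∧ n % 120 ∈ ({23, 47, 83, 107} : Finset ℕ) ∧ Gd false 0 0 n.primeFactors) ∨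
    (∃ M, n = 4 * M ∧ (Squarefree M ∧ M % 120 ∈ ({17, 53, 77, 113} : Finset ℕ) ∧
      Gd true 0 1 M.primeFactors)) ∨
    (∃ M, n = 8 * M ∧ (Squarefree M ∧ M % 120 ∈ ({1, 49, 61, 109} : Finset ℕ) ∧
      Gd true 1 1 M.primeFactors)) ∨
    (∃ M, n = 8 * M ∧ (Squarefree M ∧ M % 120 ∈ ({19, 31, 79, 91} : Finset ℕ) ∧
      Gd true 1 0 M.primeFactors)) := by
  rw [cls0_iff, cls0e_iff]
  have hm : ∀ (M : ℕ) (K : Finset ℕ), M % 120 ∈ K → ∃ a ∈ K, M % 120 = a := fun M K h => ⟨_, h, rfl⟩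
  constructor
  · rintro (⟨⟨h1, h2⟩, h3⟩ | ⟨⟨M, rfl, h1, h2⟩ | ⟨M, rfl, h1, h2⟩ | ⟨M, rfl, h1, h2⟩, h3⟩)
    · left
      refine ⟨h1, h2, (Gd_iff_Qc h1 ?_).2 h3⟩
      simp only [mem_insert, mem_singleton] at h2
      omega
    · right; left
      refine ⟨M, rfl, h1, h2, ?_⟩
      simp only [mem_insert, mem_singleton] at h2
      exact (qe1 h1 (by omega) (by omega)).1 h3
    · right; right; left
      refine ⟨M, rfl, h1, h2, ?_⟩
      simp only [mem_insert, mem_singleton] at h2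
      exact (qe2 h1 (by omega)).1 h3
    · right; right; right
      refine ⟨M, rfl, h1, h2, ?_⟩
      simp only [mem_insert, mem_singleton] at h2
      exact (qe3 h1 (by omega)).1 h3
  · rintro (⟨h1, h2, h3⟩ | ⟨M, rfl, h1, h2, h3⟩ | ⟨M, rfl, h1, h2, h3⟩ | ⟨M, rfl, h1, h2, h3⟩)
    · left
      refine ⟨⟨h1, h2⟩, (Gd_iff_Qc h1 ?_).1 h3⟩
      simp only [mem_insert, mem_singleton] at h2
      omega
    · right
      refine ⟨Or.inl ⟨M, rfl, h1, h2⟩, ?_⟩
      simp only [mem_insert, mem_singleton] at h2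
      exact (qe1 h1 (by omega) (by omega)).2 h3
    · right
      refine ⟨Or.inr (Or.inl ⟨M, rfl, h1, h2⟩), ?_⟩
      simp only [mem_insert, mem_singleton] at h2
      exact (qe2 h1 (by omega)).2 h3
    · right
      refine ⟨Or.inr (Or.inr ⟨M, rfl, h1, h2⟩), ?_⟩
      simp only [mem_insert, mem_singleton] at h2
      exact (qe3 h1 (by omega)).2 h3

/-- **natural density**: among the `n` such that `-n` is the discriminant of an imaginary quadratic
field in which `3` splits and `5` is inert, the proportion of those without ideal classes of order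
four is `η = 0.2887...` -/
theorem density_all : Tendsto
  (fun X : ℕ => (((Icc 1 X).filter fun n => (Cls0 n ∧ Qc n) ∨ (Cls0e n ∧ Qe n)).card : ℝ) /
    (((Icc 1 X).filter fun n => Cls0 n ∨ Cls0e n).card : ℝ)) atTop (nhds eta) := by
  rw [Metric.tendsto_atTop]
  intro ε hε
  obtain ⟨X0, h0⟩ := dq false 0 0 _ ok0 (ε / 1920) (by positivity)
  obtain ⟨X1, h1⟩ := dq true 0 1 _ ok1 (ε / 1920) (by positivity)
  obtain ⟨X2, h2⟩ := dq true 1 1 _ ok2 (ε / 1920) (by positivity)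
  obtain ⟨X3, h3⟩ := dq true 1 0 _ ok3 (ε / 1920) (by positivity)
  refine ⟨8 * (X0 + X1 + X2 + X3) + 400000, fun X hX => ?_⟩
  have b0 := h0 X (by omega)
  have b1 := h1 (X / 4) (by omega)
  have b2 := h2 (X / 8) (by omega)
  have b3 := h3 (X / 8) (by omega)
  have hm4 : ∀ (M : ℕ), (M % 120 ∈ ({17, 53, 77, 113} : Finset ℕ) → M % 4 = 1) ∧
      (M % 120 ∈ ({1, 49, 61, 109} : Finset ℕ) → M % 4 = 1) ∧
      (M % 120 ∈ ({19, 31, 79, 91} : Finset ℕ) → M % 4 = 3) ∧
      (M % 120 ∈ ({23, 47, 83, 107} : Finset ℕ) → M % 2 = 1) := by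
    intro M
    simp only [mem_insert, mem_singleton]
    omega
  have c1 := count_split X _ _ _ _ _ good_iff (fun n h => (hm4 n).2.2.2 h.2.1)
    (fun n h => (hm4 n).1 h.2.1) (fun n h => (hm4 n).2.1 h.2.1) (fun n h => (hm4 n).2.2.1 h.2.1)
  have c2 := count_split X _ _ _ _ _ all_iff (fun n h => (hm4 n).2.2.2 h.2)
    (fun n h => (hm4 n).1 h.2) (fun n h => (hm4 n).2.1 h.2) (fun n h => (hm4 n).2.2.1 h.2)
  have hlow := low (a := 23) (by norm_num) (by norm_num) X (by omega)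
  have hlow2 : (((Icc 1 X).filter fun D => Squarefree D ∧ D % 120 = 23).card : ℝ) ≤
      (((Icc 1 X).filter fun n => Cls0 n ∨ Cls0e n).card : ℝ) := by
    refine Nat.cast_le.2 (card_le_card fun n hn => ?_)
    rw [mem_filter] at hn ⊢
    refine ⟨hn.1, Or.inl ?_⟩
    rw [cls0_iff, hn.2.2]
    exact ⟨hn.2.1, by simp⟩
  have hX1 : (0 : ℝ) < X := by
    have : 0 < X := by omega
    exact_mod_cast this
  have c1' := congrArg (Nat.cast : ℕ → ℝ) c1
  have c2' := congrArg (Nat.cast : ℕ → ℝ) c2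
  push_cast at c1' c2'
  set G : ℝ := (((Icc 1 X).filter fun n => (Cls0 n ∧ Qc n) ∨ (Cls0e n ∧ Qe n)).card : ℝ) with hG
  set A : ℝ := (((Icc 1 X).filter fun n => Cls0 n ∨ Cls0e n).card : ℝ) with hA
  have hA0 : 0 < A := by
    have : (0 : ℝ) < 1 / 480 * X := by positivity
    linarith
  have d4 : (((X / 4 : ℕ) : ℝ)) ≤ X / 4 := by
    have := @Nat.cast_div_le ℝ _ _ _ X 4
    simpa using this
  have d8 : (((X / 8 : ℕ) : ℝ)) ≤ X / 8 := by
    have := @Nat.cast_div_le ℝ _ _ _ X 8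
    simpa using this
  rw [abs_le] at b0 b1 b2 b3
  have q1 : ε / 1920 * ((X / 4 : ℕ) : ℝ) ≤ ε / 1920 * (X / 4) :=
    mul_le_mul_of_nonneg_left d4 (by positivity)
  have q2 : ε / 1920 * ((X / 8 : ℕ) : ℝ) ≤ ε / 1920 * (X / 8) :=
    mul_le_mul_of_nonneg_left d8 (by positivity)
  have key : |G - eta * A| ≤ ε / 960 * X := by
    rw [abs_le, c1', c2']
    have hX' : 0 ≤ ε / 1920 * X := by positivity
    constructor
    · linarith [b0.1, b1.1, b2.1, b3.1]
    · linarith [b0.2, b1.2, b2.2, b3.2]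
  rw [Real.dist_eq, div_sub' hA0.ne', abs_div, abs_of_pos hA0, div_lt_iff₀ hA0, mul_comm A]
  have h4 : ε / 960 * X ≤ ε / 2 * A := by
    have := hlow.trans hlow2
    calc ε / 960 * X = ε / 2 * (1 / 480 * X) := by ring
      _ ≤ ε / 2 * A := by gcongr
  have h5 : ε / 2 * A < ε * A := by
    apply mul_lt_mul_of_pos_right _ hA0
    linarith
  linarith

end Pool.Agent.N916.TE
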