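import Mathlib
import Pool.Agent.N916.TE.Te

/-!
# Natural density of the negative discriminants in classes modulo `15` without ideal classes of
order four
-/

set_option autoImplicit false
set_option linter.all false

open scoped Classical

namespace Pool.Agent.N916.TE

open Finset Filter
open Pool.Agent.N973.ND (uu)
open Pool.Agent.N916.GB
open Pool.Agent.N969.P15 (Qc Qe Cls0 Cls0e Ev)

/-- `-n` is a negative fundamental discriminant -/
def FD (n : ℕ) : Prop := (Squarefree n ∧ n % 4 = 3) ∨ Ev n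

/-- no ideal classes of order four, elementary form -/
def Go (n : ℕ) : Prop := (n % 2 = 1 → Qc n) ∧ (n % 2 = 0 → Qe n)

/-- residues modulo `120` -/
def Ks (c k : ℕ) (R : Finset ℕ) : Finset ℕ :=
  (range 120).filter fun a => a % 4 = c ∧ (k * a) % 15 ∈ R

theorem mem_Ks {c k : ℕ} {R : Finset ℕ} (M : ℕ) : M % 120 ∈ Ks c k R ↔
    M % 4 = c ∧ (k * M) % 15 ∈ R := by
  unfold Ks
  rw [mem_filter, mem_range]
  have h1 : M % 120 % 4 = M % 4 := by omega
  have h2 : (k * (M % 120)) % 15 = (k * M) % 15 := by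
    rw [Nat.mul_mod, Nat.mul_mod k M]
    have : M % 120 % 15 = M % 15 := by omega
    rw [this]
  rw [h1, h2]
  constructor
  · exact fun h => h.2
  · exact fun h => ⟨Nat.mod_lt _ (by norm_num), h⟩

theorem cls_iff (R : Finset ℕ) (n : ℕ) : (FD n ∧ n % 15 ∈ R) ↔
    (Squarefree n ∧ n % 120 ∈ Ks 3 1 R) ∨
    (∃ M, n = 4 * M ∧ (Squarefree M ∧ M % 120 ∈ Ks 1 4 R)) ∨
    (∃ M, n = 8 * M ∧ (Squarefree M ∧ M % 120 ∈ Ks 1 8 R)) ∨
    (∃ M, n = 8 * M ∧ (Squarefree M ∧ M % 120 ∈ Ks 3 8 R)) := by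
  simp only [mem_Ks, one_mul]
  constructor
  · rintro ⟨⟨h1, h2⟩ | ⟨m, rfl, hsq, hm⟩, h3⟩
    · exact Or.inl ⟨h1, h2, h3⟩
    · rcases hm with hm | hm
      · exact Or.inr (Or.inl ⟨m, rfl, hsq, hm, h3⟩)
      · obtain ⟨M, hM⟩ : ∃ M, m = 2 * M := ⟨m / 2, by omega⟩
        have hsM : Squarefree M := hsq.squarefree_of_dvd ⟨2, by rw [hM]; ring⟩
        have h8 : 4 * m = 8 * M := by omega
        rw [h8] at h3
        rcases (show M % 4 = 1 ∨ M % 4 = 3 by omega) with h | h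
        · exact Or.inr (Or.inr (Or.inl ⟨M, h8, hsM, h, h3⟩))
        · exact Or.inr (Or.inr (Or.inr ⟨M, h8, hsM, h, h3⟩))
  · rintro (⟨h1, h2, h3⟩ | ⟨M, rfl, hsq, hM, h3⟩ | ⟨M, rfl, hsq, hM, h3⟩ | ⟨M, rfl, hsq, hM, h3⟩)
    · exact ⟨Or.inl ⟨h1, h2⟩, h3⟩
    · exact ⟨Or.inr ⟨M, rfl, hsq, Or.inl hM⟩, h3⟩
    · exact ⟨Or.inr ⟨2 * M, by ring, sq2 hsq (by omega), by omega⟩, h3⟩
    · exact ⟨Or.inr ⟨2 * M, by ring, sq2 hsq (by omega), by omega⟩, h3⟩

theorem gcls_iff {R : Finset ℕ} (h4 : 4 ∉ R) (n : ℕ) : (FD n ∧ n % 15 ∈ R ∧ Go n) ↔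
    (Squarefree n ∧ n % 120 ∈ Ks 3 1 R ∧ Gd false 0 0 n.primeFactors) ∨
    (∃ M, n = 4 * M ∧ (Squarefree M ∧ M % 120 ∈ Ks 1 4 R ∧ Gd true 0 1 M.primeFactors)) ∨
    (∃ M, n = 8 * M ∧ (Squarefree M ∧ M % 120 ∈ Ks 1 8 R ∧ Gd true 1 1 M.primeFactors)) ∨
    (∃ M, n = 8 * M ∧ (Squarefree M ∧ M % 120 ∈ Ks 3 8 R ∧ Gd true 1 0 M.primeFactors)) := by
  rw [← and_assoc, cls_iff]
  have hm1 : ∀ M, M % 120 ∈ Ks 1 4 R → M ≠ 1 := by
    rintro M h rfl
    rw [mem_Ks] at h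
    exact h4 h.2
  have hg0 : ∀ M, M % 120 ∈ Ks 3 1 R → M % 4 = 3 := fun M h => ((mem_Ks M).1 h).1
  have hg1 : ∀ M, M % 120 ∈ Ks 1 4 R → M % 4 = 1 := fun M h => ((mem_Ks M).1 h).1
  have hg2 : ∀ M, M % 120 ∈ Ks 1 8 R → M % 4 = 1 := fun M h => ((mem_Ks M).1 h).1
  have hg3 : ∀ M, M % 120 ∈ Ks 3 8 R → M % 4 = 3 := fun M h => ((mem_Ks M).1 h).1
  constructor
  · rintro ⟨⟨h1, h2⟩ | ⟨M, rfl, h1, h2⟩ | ⟨M, rfl, h1, h2⟩ | ⟨M, rfl, h1, h2⟩, h3, h5⟩
    · have := hg0 n h2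
      exact Or.inl ⟨h1, h2, (Gd_iff_Qc h1 this).2 (h3 (by omega))⟩
    · exact Or.inr (Or.inl ⟨M, rfl, h1, h2, (qe1 h1 (hg1 M h2) (hm1 M h2)).1 (h5 (by omega))⟩)
    · exact Or.inr (Or.inr (Or.inl ⟨M, rfl, h1, h2, (qe2 h1 (hg2 M h2)).1 (h5 (by omega))⟩))
    · exact Or.inr (Or.inr (Or.inr ⟨M, rfl, h1, h2, (qe3 h1 (hg3 M h2)).1 (h5 (by omega))⟩))
  · rintro (⟨h1, h2, h3⟩ | ⟨M, rfl, h1, h2, h3⟩ | ⟨M, rfl, h1, h2, h3⟩ | ⟨M, rfl, h1, h2, h3⟩)
    · have := hg0 n h2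
      exact ⟨Or.inl ⟨h1, h2⟩, fun _ => (Gd_iff_Qc h1 this).1 h3, fun h => by omega⟩
    · exact ⟨Or.inr (Or.inl ⟨M, rfl, h1, h2⟩), fun h => by omega,
        fun _ => (qe1 h1 (hg1 M h2) (hm1 M h2)).2 h3⟩
    · exact ⟨Or.inr (Or.inr (Or.inl ⟨M, rfl, h1, h2⟩)), fun h => by omega,
        fun _ => (qe2 h1 (hg2 M h2)).2 h3⟩
    · exact ⟨Or.inr (Or.inr (Or.inr ⟨M, rfl, h1, h2⟩)), fun h => by omega,
        fun _ => (qe3 h1 (hg3 M h2)).2 h3⟩

theorem okK (t : Bool) (r s : ZMod 2) (c k : ℕ) (R : Finset ℕ) (h1 : t = false → s = 0)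
    (h2 : t = true → r ≠ 0 ∨ s ≠ 0) (hc : c = if s = 0 then 3 else 1) : Ok t r s (Ks c k R) := by
  refine ⟨h1, h2, fun a ha => ?_⟩
  unfold Ks at ha
  obtain ⟨h3, h4, -⟩ := mem_filter.1 ha
  exact ⟨mem_range.1 h3, by rw [h4, hc]⟩

/-- the lower bound -/
theorem low_R {R : Finset ℕ} {g a : ℕ} (hg : g = 1 ∨ g = 3 ∨ g = 5 ∨ g = 15) (ha : a < 120)
    (hc : a.Coprime 120) (h4 : g * a % 4 = 3) (hR : g * a % 15 ∈ R) (X : ℕ) (hX : 6000000 ≤ X) :
    (1 / 14400 : ℝ) * X ≤ (((Icc 1 X).filter fun n => FD n ∧ n % 15 ∈ R).card : ℝ) := by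
  have hg0 : 0 < g := by omega
  have hg15 : g ≤ 15 := by omega
  have hXg : 400000 ≤ X / g := by
    rw [Nat.le_div_iff_mul_le hg0]
    calc 400000 * g ≤ 400000 * 15 := Nat.mul_le_mul_left _ hg15
      _ ≤ X := by omega
  have h1 := low ha hc (X / g) hXg
  have h2 : ((Icc 1 (X / g)).filter fun D => Squarefree D ∧ D % 120 = a).card ≤
      ((Icc 1 X).filter fun n => FD n ∧ n % 15 ∈ R).card := by
    apply card_le_card_of_injOn (fun D => g * D)
    · intro D hD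
      rw [mem_coe, mem_filter, mem_Icc] at hD
      obtain ⟨⟨d1, d2⟩, d3, d4⟩ := hD
      rw [mem_coe, mem_filter, mem_Icc]
      simp only
      have hcop : Nat.Coprime g D := by
        have h5 : Nat.Coprime 120 D := by
          rw [Nat.Coprime, Nat.gcd_rec, d4]
          exact hc
        have h6 : g ∣ 120 := by
          rcases hg with rfl | rfl | rfl | rfl <;> norm_num
        exact Nat.Coprime.coprime_dvd_left h6 h5
      have hsg : Squarefree g := by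
        rcases hg with rfl | rfl | rfl | rfl
        · exact squarefree_one
        · exact Nat.prime_three.squarefree
        · exact Nat.prime_five.squarefree
        · rw [show 15 = 3 * 5 by norm_num, Nat.squarefree_mul (by norm_num)]
          exact ⟨Nat.prime_three.squarefree, Nat.prime_five.squarefree⟩
      refine ⟨⟨Nat.mul_pos hg0 d1, ?_⟩, Or.inl ⟨(Nat.squarefree_mul hcop).2 ⟨hsg, d3⟩, ?_⟩, ?_⟩
      · rw [mul_comm]
        exact (Nat.le_div_iff_mul_le hg0).1 d2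
      · rw [Nat.mul_mod]
        have : D % 4 = a % 4 := by omega
        rw [this, ← Nat.mul_mod, h4]
      · rw [Nat.mul_mod]
        have : D % 15 = a % 15 := by omega
        rw [this, ← Nat.mul_mod]
        exact hR
    · intro x _ y _ h
      exact Nat.eq_of_mul_eq_mul_left hg0 h
  have h3 : (((Icc 1 (X / g)).filter fun D => Squarefree D ∧ D % 120 = a).card : ℝ) ≤
      (((Icc 1 X).filter fun n => FD n ∧ n % 15 ∈ R).card : ℝ) := by exact_mod_cast h2
  refine le_trans ?_ (h1.trans h3)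
  have h5 : X < (X / g + 1) * g := Nat.lt_mul_of_div_lt (Nat.lt_succ_self _) hg0
  have h6 : X ≤ 30 * (X / g) := by
    have h7 : (X / g + 1) * g ≤ (X / g + 1) * 15 := Nat.mul_le_mul_left _ hg15
    omega
  have h7 : (X : ℝ) ≤ 30 * ((X / g : ℕ) : ℝ) := by exact_mod_cast h6
  linarith

/-- **natural density in classes modulo `15`**: among the negative fundamental discriminants `-n`
with `n` modulo `15` in `R`, the proportion of those without ideal classes of order four is `η` -/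
theorem density_R {R : Finset ℕ} (h4R : 4 ∉ R) {g a : ℕ} (hg : g = 1 ∨ g = 3 ∨ g = 5 ∨ g = 15)
    (ha : a < 120) (hc : a.Coprime 120) (h4 : g * a % 4 = 3) (hR : g * a % 15 ∈ R) : Tendsto
  (fun X : ℕ => (((Icc 1 X).filter fun n => FD n ∧ n % 15 ∈ R ∧ Go n).card : ℝ) /
    (((Icc 1 X).filter fun n => FD n ∧ n % 15 ∈ R).card : ℝ)) atTop (nhds eta) := by
  rw [Metric.tendsto_atTop]
  intro ε hε
  obtain ⟨X0, h0⟩ := dq false 0 0 _ (okK false 0 0 3 1 R (fun _ => rfl)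
    (fun h => absurd h (by decide)) (by rw [if_pos rfl])) (ε / 57600) (by positivity)
  obtain ⟨X1, h1⟩ := dq true 0 1 _ (okK true 0 1 1 4 R (fun h => absurd h (by decide))
    (fun _ => Or.inr (by decide)) (by rw [if_neg (by decide)])) (ε / 57600) (by positivity)
  obtain ⟨X2, h2⟩ := dq true 1 1 _ (okK true 1 1 1 8 R (fun h => absurd h (by decide))
    (fun _ => Or.inr (by decide)) (by rw [if_neg (by decide)])) (ε / 57600) (by positivity)
  obtain ⟨X3, h3⟩ := dq true 1 0 _ (okK true 1 0 3 8 R (fun h => absurd h (by decide))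
    (fun _ => Or.inl (by decide)) (by rw [if_pos rfl])) (ε / 57600) (by positivity)
  refine ⟨8 * (X0 + X1 + X2 + X3) + 6000000, fun X hX => ?_⟩
  have b0 := h0 X (by omega)
  have b1 := h1 (X / 4) (by omega)
  have b2 := h2 (X / 8) (by omega)
  have b3 := h3 (X / 8) (by omega)
  have c1 := count_split X _ _ _ _ _ (gcls_iff h4R) (fun n h => by
      have := ((mem_Ks n).1 h.2.1).1; omega) (fun n h => ((mem_Ks n).1 h.2.1).1)
    (fun n h => ((mem_Ks n).1 h.2.1).1) (fun n h => ((mem_Ks n).1 h.2.1).1)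
  have c2 := count_split X _ _ _ _ _ (cls_iff R) (fun n h => by
      have := ((mem_Ks n).1 h.2).1; omega) (fun n h => ((mem_Ks n).1 h.2).1)
    (fun n h => ((mem_Ks n).1 h.2).1) (fun n h => ((mem_Ks n).1 h.2).1)
  have hlow := low_R hg ha hc h4 hR X (by omega)
  have hX1 : (0 : ℝ) < X := by
    have : 0 < X := by omega
    exact_mod_cast this
  have c1' := congrArg (Nat.cast : ℕ → ℝ) c1
  have c2' := congrArg (Nat.cast : ℕ → ℝ) c2
  push_cast at c1' c2'
  set G : ℝ := (((Icc 1 X).filter fun n => FD n ∧ n % 15 ∈ R ∧ Go n).card : ℝ) with hG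
  set A : ℝ := (((Icc 1 X).filter fun n => FD n ∧ n % 15 ∈ R).card : ℝ) with hA
  have hA0 : 0 < A := by
    have : (0 : ℝ) < 1 / 14400 * X := by positivity
    linarith
  have d4 : (((X / 4 : ℕ) : ℝ)) ≤ X / 4 := by
    have := @Nat.cast_div_le ℝ _ _ _ X 4
    simpa using this
  have d8 : (((X / 8 : ℕ) : ℝ)) ≤ X / 8 := by
    have := @Nat.cast_div_le ℝ _ _ _ X 8
    simpa using this
  rw [abs_le] at b0 b1 b2 b3
  have q1 : ε / 57600 * ((X / 4 : ℕ) : ℝ) ≤ ε / 57600 * (X / 4) :=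
    mul_le_mul_of_nonneg_left d4 (by positivity)
  have q2 : ε / 57600 * ((X / 8 : ℕ) : ℝ) ≤ ε / 57600 * (X / 8) :=
    mul_le_mul_of_nonneg_left d8 (by positivity)
  have key : |G - eta * A| ≤ ε / 28800 * X := by
    rw [abs_le, c1', c2']
    have hX' : 0 ≤ ε / 57600 * X := by positivity
    constructor
    · linarith [b0.1, b1.1, b2.1, b3.1]
    · linarith [b0.2, b1.2, b2.2, b3.2]
  rw [Real.dist_eq, div_sub' hA0.ne', abs_div, abs_of_pos hA0, div_lt_iff₀ hA0, mul_comm A]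
  have h4 : ε / 28800 * X ≤ ε / 2 * A := by
    calc ε / 28800 * X = ε / 2 * (1 / 14400 * X) := by ring
      _ ≤ ε / 2 * A := by gcongr
  have h5 : ε / 2 * A < ε * A := by
    apply mul_lt_mul_of_pos_right _ hA0
    linarith
  linarith

/-- the class of all negative fundamental discriminants with `3` not inert and `5` not split -/
theorem density_T3 : Tendsto
  (fun X : ℕ => (((Icc 1 X).filter fun n => FD n ∧ (n % 3 ≠ 1 ∧ (n % 5 = 0 ∨ n % 5 = 2 ∨
      n % 5 = 3)) ∧ Go n).card : ℝ) /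
    (((Icc 1 X).filter fun n => FD n ∧ (n % 3 ≠ 1 ∧ (n % 5 = 0 ∨ n % 5 = 2 ∨
      n % 5 = 3))).card : ℝ)) atTop (nhds eta) := by
  have h := density_R (R := {0, 2, 3, 5, 8, 12}) (g := 1) (a := 23) (by simp) (Or.inl rfl)
    (by norm_num) (by norm_num) (by norm_num) (by simp)
  refine h.congr fun X => ?_
  have hm : ∀ n : ℕ, n % 15 ∈ ({0, 2, 3, 5, 8, 12} : Finset ℕ) ↔
      (n % 3 ≠ 1 ∧ (n % 5 = 0 ∨ n % 5 = 2 ∨ n % 5 = 3)) := by
    intro n
    simp only [mem_insert, mem_singleton]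
    omega
  congr 3
  · refine filter_congr fun n _ => ?_
    rw [hm]
  · refine filter_congr fun n _ => ?_
    rw [hm]

/-- the class `15 n`, `n` congruent to `1` modulo `4` and prime to `15` -/
theorem density_15 : Tendsto
  (fun X : ℕ => (((Icc 1 X).filter fun n => Squarefree n ∧ n % 4 = 1 ∧ n.Coprime 15 ∧
      Qc (15 * n)).card : ℝ) /
    (((Icc 1 X).filter fun n => Squarefree n ∧ n % 4 = 1 ∧ n.Coprime 15).card : ℝ))
    atTop (nhds eta) := by
  have hK : ∀ n : ℕ, n % 120 ∈ ({15, 75} : Finset ℕ) ↔ n % 4 = 3 ∧ 15 ∣ n := by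
    intro n
    simp only [mem_insert, mem_singleton]
    omega
  have hcnt : ∀ (X : ℕ) (Q : ℕ → Prop), ((Icc 1 X).filter fun n => Squarefree n ∧ n % 4 = 1 ∧
      n.Coprime 15 ∧ Q (15 * n)).card =
      ((Icc 1 (15 * X)).filter fun n => Squarefree n ∧ n % 120 ∈ ({15, 75} : Finset ℕ) ∧
        Q n).card := by
    intro X Q
    refine Finset.card_bij (fun n _ => 15 * n) ?_ ?_ ?_
    · intro n hn
      rw [mem_filter, mem_Icc] at hn ⊢
      obtain ⟨⟨h1, h2⟩, h3, h4, h5, h6⟩ := hn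
      refine ⟨⟨by omega, by omega⟩, ?_, (hK _).2 ⟨by omega, Dvd.intro _ rfl⟩, h6⟩
      rw [Nat.squarefree_mul h5.symm]
      refine ⟨?_, h3⟩
      rw [show 15 = 3 * 5 by norm_num, Nat.squarefree_mul (by norm_num)]
      exact ⟨Nat.prime_three.squarefree, Nat.prime_five.squarefree⟩
    · intro n _ n' _ h
      omega
    · intro N hN
      rw [mem_filter, mem_Icc, hK] at hN
      obtain ⟨⟨h1, h2⟩, h3, ⟨h4, k, rfl⟩, h6⟩ := hN
      refine ⟨k, ?_, rfl⟩
      rw [mem_filter, mem_Icc]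
      refine ⟨⟨by omega, by omega⟩, h3.squarefree_of_dvd (Dvd.intro_left _ rfl), by omega,
        (Nat.coprime_of_squarefree_mul h3).symm, h6⟩
  have hok : Ok false 0 0 {15, 75} := ⟨fun _ => rfl, fun h => absurd h (by decide),
    fun a ha => by
      rw [if_pos rfl]
      simp only [mem_insert, mem_singleton] at ha
      omega⟩
  rw [Metric.tendsto_atTop]
  intro ε hε
  obtain ⟨X₀, hX₀⟩ := dq false 0 0 {15, 75} hok (ε / 14400) (by positivity)
  refine ⟨X₀ + 400000, fun X hX => ?_⟩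
  have h1 := hX₀ (15 * X) (by omega)
  have e1 := hcnt X (fun n => Gd false 0 0 n.primeFactors)
  have e2 := hcnt X (fun _ => True)
  simp only [and_true] at e2
  rw [← e1, ← e2] at h1
  have hQ : ((Icc 1 X).filter fun n => Squarefree n ∧ n % 4 = 1 ∧ n.Coprime 15 ∧
      Gd false 0 0 (15 * n).primeFactors).card = ((Icc 1 X).filter fun n => Squarefree n ∧
        n % 4 = 1 ∧ n.Coprime 15 ∧ Qc (15 * n)).card := by
    congr 1
    refine filter_congr fun n _ => ?_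
    constructor
    · rintro ⟨h1, h2, h3, h4⟩
      refine ⟨h1, h2, h3, (Gd_iff_Qc ?_ (by omega)).1 h4⟩
      rw [Nat.squarefree_mul h3.symm]
      refine ⟨?_, h1⟩
      rw [show 15 = 3 * 5 by norm_num, Nat.squarefree_mul (by norm_num)]
      exact ⟨Nat.prime_three.squarefree, Nat.prime_five.squarefree⟩
    · rintro ⟨h1, h2, h3, h4⟩
      refine ⟨h1, h2, h3, (Gd_iff_Qc ?_ (by omega)).2 h4⟩
      rw [Nat.squarefree_mul h3.symm]
      refine ⟨?_, h1⟩
      rw [show 15 = 3 * 5 by norm_num, Nat.squarefree_mul (by norm_num)]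
      exact ⟨Nat.prime_three.squarefree, Nat.prime_five.squarefree⟩
  rw [hQ] at h1
  have h2 := low (a := 1) (by norm_num) (by norm_num) X (by omega)
  have h3 : (((Icc 1 X).filter fun D => Squarefree D ∧ D % 120 = 1).card : ℝ) ≤
      (((Icc 1 X).filter fun n => Squarefree n ∧ n % 4 = 1 ∧ n.Coprime 15).card : ℝ) := by
    refine Nat.cast_le.2 (card_le_card fun n hn => ?_)
    rw [mem_filter] at hn ⊢
    refine ⟨hn.1, hn.2.1, by omega, ?_⟩
    have h5 : Nat.Coprime 15 n := by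
      rw [Nat.Coprime, Nat.gcd_rec]
      have : n % 15 = 1 := by omega
      rw [this]
      norm_num
    exact h5.symm
  have hX1 : (0 : ℝ) < X := by
    have : 0 < X := by omega
    exact_mod_cast this
  set M : ℝ := (((Icc 1 X).filter fun n => Squarefree n ∧ n % 4 = 1 ∧ n.Coprime 15).card : ℝ)
    with hM
  have hM0 : 0 < M := by
    have : (0 : ℝ) < 1 / 480 * X := by positivity
    linarith
  rw [Real.dist_eq, div_sub' hM0.ne', abs_div, abs_of_pos hM0, div_lt_iff₀ hM0, mul_comm M]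
  push_cast at h1
  have h4 : ε / 14400 * (15 * X) ≤ ε / 2 * M := by
    have := h2.trans h3
    calc ε / 14400 * (15 * X) = ε / 2 * (1 / 480 * X) := by ring
      _ ≤ ε / 2 * M := by gcongr
  have h5 : ε / 2 * M < ε * M := by
    apply mul_lt_mul_of_pos_right _ hM0
    linarith
  linarith

end Pool.Agent.N916.TE
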